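import Pool.Agent.helper65.WB.Defs

set_option autoImplicit false

/-!
# WB project, module PF: the probability of a window in an eigenvector
-/

namespace Pool.Agent.helper65.WB

open Finset Matrix
open scoped ComplexOrder

theorem PF_unitary_sum {D : ℕ} (U : Matrix (Fin D) (Fin D) ℂ)
    (hU : U ∈ Matrix.unitaryGroup (Fin D) ℂ) (φ : Fin D → ℂ) :
    ∑ a, ‖∑ y, U a y * φ y‖ ^ 2 = ∑ y, ‖φ y‖ ^ 2 := by
  have h1 : star (U.mulVec φ) ⬝ᵥ (U.mulVec φ) = star φ ⬝ᵥ φ := by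
    rw [Matrix.star_mulVec, ← Matrix.dotProduct_mulVec, Matrix.mulVec_mulVec]
    have : Uᴴ * U = 1 := by
      have := Matrix.mem_unitaryGroup_iff'.1 hU
      simpa [Matrix.star_eq_conjTranspose] using this
    rw [this, Matrix.one_mulVec]
  have h2 : ∀ v : Fin D → ℂ, star v ⬝ᵥ v = ((∑ a, ‖v a‖ ^ 2 : ℝ) : ℂ) := by
    intro v
    simp only [dotProduct, Pi.star_apply]
    push_cast
    refine Finset.sum_congr rfl fun a _ => ?_
    have := Complex.conj_mul' (v a)
    simpa using this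
  rw [h2, h2] at h1
  have h3 := Complex.ofReal_injective h1
  simpa [Matrix.mulVec, dotProduct] using h3

theorem PF_shift {D k : ℕ} (U : Matrix (Fin D) (Fin D) ℂ)
    (hU : U ∈ Matrix.unitaryGroup (Fin D) ℂ) (ψ : (Fin (k + 1) → Fin D) → ℂ)
    (g : (Fin k → Fin D) → ℝ) :
    ∑ x : Fin (k + 1) → Fin D, ‖baker U ψ x‖ ^ 2 * g (Fin.init x) =
      ∑ x : Fin (k + 1) → Fin D, ‖ψ x‖ ^ 2 * g (Fin.tail x) := by
  have hL : ∑ x : Fin (k + 1) → Fin D, ‖baker U ψ x‖ ^ 2 * g (Fin.init x) =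
      ∑ p : Fin D × (Fin k → Fin D),
        ‖∑ y, U p.1 y * ψ (Fin.cons y p.2)‖ ^ 2 * g p.2 := by
    symm
    refine Fintype.sum_equiv (Fin.snocEquiv (fun _ : Fin (k + 1) => Fin D)) _ _ ?_
    rintro ⟨a, v⟩
    simp [Fin.snocEquiv, baker]
  have hR : ∑ x : Fin (k + 1) → Fin D, ‖ψ x‖ ^ 2 * g (Fin.tail x) =
      ∑ p : Fin D × (Fin k → Fin D), ‖ψ (Fin.cons p.1 p.2)‖ ^ 2 * g p.2 := by
    symm
    refine Fintype.sum_equiv (Fin.consEquiv (fun _ : Fin (k + 1) => Fin D)) _ _ ?_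
    rintro ⟨a, v⟩
    simp [Fin.consEquiv]
  rw [hL, hR, Fintype.sum_prod_type_right, Fintype.sum_prod_type_right]
  refine Finset.sum_congr rfl fun v _ => ?_
  dsimp only
  rw [← Finset.sum_mul, ← Finset.sum_mul]
  congr 1
  exact PF_unitary_sum U hU (fun y => ψ (Fin.cons y v))

/-- probability of a cyclic window -/
noncomputable def PF_q {D k n : ℕ} (ψ : (Fin (k + 1) → Fin D) → ℂ) (w : Fin n → Fin D) (i : ℕ) :
    ℝ := ∑ x, ‖ψ x‖ ^ 2 * (if (∀ s : Fin n, cyc x (i + s.val) = w s) then (1 : ℝ) else 0)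

theorem PF_q_nonneg {D k n : ℕ} (ψ : (Fin (k + 1) → Fin D) → ℂ) (w : Fin n → Fin D) (i : ℕ) :
    0 ≤ PF_q ψ w i := by
  refine Finset.sum_nonneg fun x _ => mul_nonneg (by positivity) ?_
  split_ifs <;> norm_num

theorem PF_q_le {D k n : ℕ} (ψ : (Fin (k + 1) → Fin D) → ℂ) (h1 : ∑ x, ‖ψ x‖ ^ 2 = 1)
    (w : Fin n → Fin D) (i : ℕ) : PF_q ψ w i ≤ 1 := by
  rw [← h1]
  refine Finset.sum_le_sum fun x _ => ?_
  have : (0 : ℝ) ≤ ‖ψ x‖ ^ 2 := by positivity
  split_ifs
  · simp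
  · rw [mul_zero]; exact this

theorem PF_cyc {D k : ℕ} (x : Fin (k + 1) → Fin D) (m : ℕ) (hm : m < k + 1) :
    cyc x m = x ⟨m, hm⟩ := by
  unfold cyc
  congr 1
  exact Fin.ext (Nat.mod_eq_of_lt hm)

theorem PF_q_zero {D k n : ℕ} (ψ : (Fin (k + 1) → Fin D) → ℂ) (hn : n ≤ k + 1)
    (w : Fin n → Fin D) : PF_q ψ w 0 = prob ψ w := by
  unfold PF_q prob
  rw [Finset.sum_filter]
  refine Finset.sum_congr rfl fun x _ => ?_
  have : (∀ s : Fin n, cyc x (0 + s.val) = w s) ↔ Begins x w := by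
    unfold Begins
    constructor
    · intro h i hi
      rw [← h i, PF_cyc x _ (by omega)]
      congr 1
      exact Fin.ext (by simp)
    · intro h s
      rw [PF_cyc x _ (by omega), ← h s (by omega)]
      congr 1
      exact Fin.ext (by simp)
  by_cases hb : Begins x w
  · rw [if_pos (this.2 hb), if_pos hb, mul_one]
  · rw [if_neg (fun hc => hb (this.1 hc)), if_neg hb, mul_zero]

theorem PF_q_succ {D k n : ℕ} (U : Matrix (Fin D) (Fin D) ℂ)
    (hU : U ∈ Matrix.unitaryGroup (Fin D) ℂ) (ψ : (Fin (k + 1) → Fin D) → ℂ)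
    (hψ : IsEigen U ψ) (w : Fin n → Fin D) (i : ℕ) (hi : i + n ≤ k) :
    PF_q ψ w (i + 1) = PF_q ψ w i := by
  obtain ⟨h1, z, hz⟩ := hψ
  have hb : ∀ x, ‖baker U ψ x‖ ^ 2 = ‖z‖ ^ 2 * ‖ψ x‖ ^ 2 := fun x => by
    rw [hz x, norm_mul, mul_pow]
  have hz1 : ‖z‖ ^ 2 = 1 := by
    have := PF_shift U hU ψ (fun _ => 1)
    simp only [hb, mul_one, ← Finset.mul_sum, h1] at this
    exact this
  let g : (Fin k → Fin D) → ℝ := fun v =>
    if (∀ s : Fin n, v ⟨i + s.val, by omega⟩ = w s) then (1 : ℝ) else 0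
  have key := PF_shift U hU ψ g
  simp only [hb, hz1, one_mul] at key
  unfold PF_q
  have e1 : ∀ x : Fin (k + 1) → Fin D,
      (if (∀ s : Fin n, cyc x (i + s.val) = w s) then (1 : ℝ) else 0) = g (Fin.init x) := by
    intro x
    have : (∀ s : Fin n, cyc x (i + s.val) = w s) ↔
        (∀ s : Fin n, (Fin.init x : Fin k → Fin D) ⟨i + s.val, by omega⟩ = w s) := by
      refine forall_congr' fun s => ?_
      rw [PF_cyc x _ (by omega)]
      exact Iff.rfl
    simp only [g, this]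
  have e2 : ∀ x : Fin (k + 1) → Fin D,
      (if (∀ s : Fin n, cyc x (i + 1 + s.val) = w s) then (1 : ℝ) else 0) = g (Fin.tail x) := by
    intro x
    have : (∀ s : Fin n, cyc x (i + 1 + s.val) = w s) ↔
        (∀ s : Fin n, (Fin.tail x : Fin k → Fin D) ⟨i + s.val, by omega⟩ = w s) := by
      refine forall_congr' fun s => ?_
      rw [PF_cyc x _ (by omega)]
      have : x ⟨i + 1 + s.val, by omega⟩ = (Fin.tail x : Fin k → Fin D) ⟨i + s.val, by omega⟩ := by
        unfold Fin.tail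
        congr 1
        exact Fin.ext (by simp; omega)
      rw [this]
    simp only [g, this]
  simp only [e1, e2]
  exact key.symm

theorem PF_q_eq {D k n : ℕ} (U : Matrix (Fin D) (Fin D) ℂ)
    (hU : U ∈ Matrix.unitaryGroup (Fin D) ℂ) (ψ : (Fin (k + 1) → Fin D) → ℂ)
    (hψ : IsEigen U ψ) (w : Fin n → Fin D) (i : ℕ) (hi : i + n ≤ k + 1) :
    PF_q ψ w i = PF_q ψ w 0 := by
  induction i with
  | zero => rfl
  | succ i ih => rw [PF_q_succ U hU ψ hψ w i (by omega), ih (by omega)]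

/-- the probability of a window in an eigenvector does not depend on its place, so it is almost
the mean cyclic frequency -/
theorem prob_freq {D k n : ℕ} (U : Matrix (Fin D) (Fin D) ℂ)
    (hU : U ∈ Matrix.unitaryGroup (Fin D) ℂ) (ψ : (Fin (k + 1) → Fin D) → ℂ)
    (hψ : IsEigen U ψ) (hn : n ≤ k + 1) (w : Fin n → Fin D) :
    |prob ψ w - ∑ x, ‖ψ x‖ ^ 2 * freq w x| ≤ n / (k + 1) := by
  have hk : (0 : ℝ) < (k : ℝ) + 1 := by positivity
  have e1 : ∑ x, ‖ψ x‖ ^ 2 * freq w x = (∑ i ∈ range (k + 1), PF_q ψ w i) / (k + 1) := by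
    unfold freq PF_q
    rw [Finset.sum_comm, Finset.sum_div]
    refine Finset.sum_congr rfl fun x _ => ?_
    rw [← Finset.mul_sum, mul_div_assoc]
  have e2 : prob ψ w - ∑ x, ‖ψ x‖ ^ 2 * freq w x =
      (∑ i ∈ range (k + 1), (PF_q ψ w 0 - PF_q ψ w i)) / (k + 1) := by
    rw [e1, ← PF_q_zero ψ hn w, Finset.sum_sub_distrib, Finset.sum_const, card_range, nsmul_eq_mul]
    push_cast
    field_simp
  rw [e2, abs_div, abs_of_pos hk]
  refine div_le_div_of_nonneg_right ?_ hk.le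
  calc |∑ i ∈ range (k + 1), (PF_q ψ w 0 - PF_q ψ w i)|
      ≤ ∑ i ∈ range (k + 1), |PF_q ψ w 0 - PF_q ψ w i| := Finset.abs_sum_le_sum_abs _ _
    _ ≤ ∑ i ∈ range (k + 1), (if k + 1 < i + n then (1 : ℝ) else 0) := by
        refine Finset.sum_le_sum fun i _ => ?_
        split_ifs with h
        · rw [abs_le]
          have a1 := PF_q_nonneg ψ w 0
          have a2 := PF_q_nonneg ψ w i
          have a3 := PF_q_le ψ hψ.1 w 0
          have a4 := PF_q_le ψ hψ.1 w i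
          constructor <;> linarith
        · rw [PF_q_eq U hU ψ hψ w i (by omega)]
          simp
    _ = ((range (k + 1)).filter (fun i => k + 1 < i + n)).card := by
        rw [Finset.sum_boole]
    _ ≤ n := by
        have : ((range (k + 1)).filter (fun i => k + 1 < i + n)) ⊆ Ico (k + 1 - n) (k + 1) := by
          intro i hi
          simp only [mem_filter, mem_range, mem_Ico] at hi ⊢
          omega
        have h2 := Finset.card_le_card this
        rw [Nat.card_Ico] at h2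
        exact_mod_cast (by omega : _ ≤ n)

end Pool.Agent.helper65.WB
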